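import Mathlib
import Pool.Agent.K7.H82.Lim

/-!
# Nonexpansive fixed points for semigroups with an invariant mean on `WAP(S)`

Every semitopological semigroup `S` for which `WAP(S)` has a left invariant mean has property (F);
no separability is needed.
-/

set_option autoImplicit false

open Filter Topology Set
open scoped BoundedContinuousFunction ComplexOrder

namespace Pool.Agent.Results.MP_c68506_an.FixedPoints

open Pool.Agent.K7.H82

universe u v w z y

/-- If `WAP(S)` has a left invariant mean, then `S` has property (F). -/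
theorem result (𝕝 : Type y) (S : Type u) [RCLike 𝕝] [Semigroup S] [TopologicalSpace S]
    [SeparatelyContinuousMul S] (h : ∃ m : wap 𝕝 S →ₗ[𝕝] 𝕝, IsLIM m) :
    PropertyF.{u, v, w, z} S := by
  intro 𝕜 _ E _ _ _ _ _ _ ι Q hQ C hCne hC hconv T hrep
  obtain ⟨m, hm⟩ := h
  obtain ⟨hmul, hT, hcs, hcl, hne⟩ := hrep
  have h1 : IsTopologicalAddGroup E := hQ.topologicalAddGroup
  have h2 : ContinuousSMul 𝕜 E := hQ.continuousSMul
  have h3 : LocallyConvexSpace ℝ E := hQ.toLocallyConvexSpace
  have h4 : PolynormableSpace 𝕜 E := hQ.toPolynormableSpace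
  have h5 : SeparatingDual 𝕜 E := by
    refine ⟨fun x hx => ?_⟩
    have : ContinuousSMul ℝ E := IsScalarTower.continuousSMul 𝕜
    obtain ⟨f, hf⟩ := RCLike.geometric_hahn_banach_point_point (𝕜 := 𝕜) hx
    refine ⟨f, fun h0 => ?_⟩
    rw [h0, map_zero, map_zero, map_zero] at hf
    exact lt_irrefl _ hf
  have h6 : T2Space (WeakSpace 𝕜 E) := inferInstance
  have hK : CompactSpace C := isCompact_iff_compactSpace.1 hC
  have hmul' : ∀ s t x, T (s * t) x = T s (T t x) := fun s t x => congrFun (hmul s t) x
  refine core hC hconv hCne (fun i => wkSeminorm (Q i)) ?_ ?_ ?_ T hmul' hT ?_ ?_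
  · exact fun i y r => isClosed_ball_wk (Q i) (hQ.continuous_seminorm i) y r
  · exact fun i F hF hFne ε hε => fragment_wk (Q i) (hQ.continuous_seminorm i) F hF hFne ε hε
  · intro x hx
    by_contra hne0
    obtain ⟨i, hi⟩ := hQ.separating_of_T1 ((toWeakSpace 𝕜 E).symm x) (by
      intro h0
      exact hne0 ((toWeakSpace 𝕜 E).symm.map_eq_zero_iff.1 h0))
    exact hi (hx i)
  · exact fun s i x y => hne s i x y
  · exact fun y₀ => exists_isMean m hm T hmul' hcs hcl y₀

end Pool.Agent.Results.MP_c68506_an.FixedPoints
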